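import Pool.Agent.E8helper20.CTM.StmD
import Pool.Agent.E8helper51.CTK3.Box3
import Pool.Agent.Y170.XL.BOX

/-!
# Project CTM, part M5 (helper55): the count in a box, with two additional vertices

Adapted from `Pool/Agent/E8helper56/CTL3/BoxL.lean` and `Pool/Agent/E8helper51/CTK3/Box3.lean`.
-/

set_option autoImplicit false

open scoped Classical

namespace Pool.Agent.E8helper55.CTM

open Finset
open Pool.Agent.Y692.QS (Ei)
open Pool.Agent.Y715.T.Rec (cs)
open Pool.Agent.Y715.T.RecG (Pq)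
open Pool.Agent.Y703.XK (prs HB S_EQ)
open Pool.Agent.Y703.XL (nA cr)
open Pool.Agent.Y688.XK (cs_symm ext_sum HB_sub)
open Pool.Agent.Y170.XL (em em_bij fe fe_one fe_two sum_em)
open Pool.Agent.R419.KF (wt wt_one wt_ne)
open Pool.Agent.E8helper51.CTK3 (ext_symm sum_lap)
open Pool.Agent.E8helper20.CTM (c2 c3 lf Nd9 BoxM n2 S_BOX2)

/-- the label of a prime with respect to the small primes and modulo `9` -/
noncomputable def lb2 (b : ZMod 3) (S₀ : Finset Ei) (x : Ei) : Option (Option S₀) → ZMod 3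
  | none => (b - 1) * c2 x - c3 x
  | some none => c2 x
  | some (some u) => cs u x

/-- the weights -/
noncomputable def wo2 (M S₀ : Finset Ei) : Option (Option S₀) → ZMod 3
  | none => 1
  | some none => 1
  | some (some u) => wt M u

theorem wo2_ne (M S₀ : Finset Ei) (u : Option (Option S₀)) : wo2 M S₀ u ≠ 0 := by
  rcases u with _ | _ | u
  · exact one_ne_zero
  · exact one_ne_zero
  · exact wt_ne M _

/-- the block of the small primes and the two additional vertices -/
noncomputable def AA2 (b q : ZMod 3) (M S₀ : Finset Ei) :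
    Option (Option S₀) → Option (Option S₀) → ZMod 3
  | none, none => 0
  | none, some none => q
  | none, some (some v) => wt M v * ((b - 1) * c2 v - c3 v)
  | some none, none => q
  | some none, some none => 0
  | some none, some (some v) => wt M v * c2 v
  | some (some u), none => wt M u * ((b - 1) * c2 u - c3 u)
  | some (some u), some none => wt M u * c2 u
  | some (some u), some (some v) => wt M u * wt M v * cs u v

theorem AA2_symm (b q : ZMod 3) {M S₀ : Finset Ei} (hS₀ : ∀ u ∈ S₀, Pq u)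
    (u v : Option (Option S₀)) : AA2 b q M S₀ u v = AA2 b q M S₀ v u := by
  rcases u with _ | _ | u <;> rcases v with _ | _ | v
  · rfl
  · rfl
  · rfl
  · rfl
  · rfl
  · rfl
  · rfl
  · rfl
  · simp only [AA2]
    rw [cs_symm (hS₀ u u.2) (hS₀ v v.2), mul_comm (wt M u) (wt M v)]

/-- the good labels -/
def LN2 {ι : Type} (S₀ : Finset Ei) (β : ι → Option (Option S₀) → ZMod 3) : Prop :=
  ∀ w : Option (Option S₀) → ZMod 3, (∃ u, w u ≠ 0) → ∃ i, ∑ u, w u * β i u ≠ 0

section one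
variable {ι : Type} [Fintype ι] [LinearOrder ι] {M S₀ : Finset Ei} {p : ι → Ei}

omit [LinearOrder ι] in
theorem nd9_iff (b : ZMod 3) :
    Nd9 S₀ (univ.image p) ↔ LN2 S₀ (fun i => lb2 b S₀ (p i)) := by
  unfold Nd9 LN2
  constructor
  · intro h w hw
    obtain ⟨v, hv⟩ : ∃ v : Ei → ZMod 3, ∀ n, v n = if h : n ∈ S₀ then w (some (some ⟨n, h⟩))
      else 0 := ⟨_, fun _ => rfl⟩
    have hvu : ∀ u : S₀, v u = w (some (some u)) := fun u => by rw [hv, dif_pos u.2]
    obtain ⟨x, hx, hx2⟩ := h ((b - 1) * w none + w (some none)) (- w none) v (by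
      obtain ⟨u, hu⟩ := hw
      by_cases h1 : w none = 0
      · rcases u with _ | _ | u
        · exact absurd h1 hu
        · left
          rw [h1]
          simpa using hu
        · exact Or.inr (Or.inr ⟨u, u.2, by rw [hvu]; exact hu⟩)
      · exact Or.inr (Or.inl (neg_ne_zero.2 h1)))
    rw [Finset.mem_image] at hx
    obtain ⟨i, -, rfl⟩ := hx
    refine ⟨i, ?_⟩
    rw [← Finset.sum_coe_sort S₀] at hx2
    intro h0
    apply hx2
    rw [← h0, Fintype.sum_option, Fintype.sum_option]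
    have e : ∑ u : S₀, v u * cs u (p i) =
        ∑ u : S₀, w (some (some u)) * lb2 b S₀ (p i) (some (some u)) := by
      refine Finset.sum_congr rfl fun u _ => ?_
      rw [hvu]
      rfl
    rw [e]
    simp only [lb2, lf]
    ring
  · intro h t t' v hw
    obtain ⟨i, hi⟩ := h (fun o => match o with
      | none => - t'
      | some none => t + (b - 1) * t'
      | some (some u) => v u) (by
        by_cases h1 : t' = 0
        · rcases hw with hw | hw | ⟨u, hu0, hu⟩
          · refine ⟨some none, ?_⟩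
            change t + (b - 1) * t' ≠ 0
            rw [h1]
            simpa using hw
          · exact absurd h1 hw
          · exact ⟨some (some ⟨u, hu0⟩), hu⟩
        · exact ⟨none, neg_ne_zero.2 h1⟩)
    refine ⟨p i, Finset.mem_image_of_mem _ (Finset.mem_univ _), ?_⟩
    rw [← Finset.sum_coe_sort S₀]
    rw [Fintype.sum_option, Fintype.sum_option] at hi
    intro h0
    apply hi
    rw [← h0]
    simp only [lb2, lf]
    ring

/-- the system with the values `0` and `s` at the additional vertices -/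
def YY (b q : ZMod 3) (M S₀ : Finset Ei) (p : ι → Ei) (c : S₀ → ZMod 3) (d : ι → ZMod 3)
    (s : ZMod 3) : Prop :=
  (∀ u : S₀, ∑ v : S₀, wt M u * wt M v * cs u v * (c v - c u) + wt M u * c2 u * (s - c u) +
    wt M u * ((b - 1) * c2 u - c3 u) * (0 - c u) +
    ∑ l, wt M u * cs u (p l) * (d l - c u) = 0) ∧
  (∀ k : ι, ∑ u : S₀, wt M u * cs u (p k) * (c u - d k) + c2 (p k) * (s - d k) +
    ((b - 1) * c2 (p k) - c3 (p k)) * (0 - d k) +
    ∑ l, Pool.Agent.Y703.XK.ext (fun e : prs ι => cs (p e.1.1) (p e.1.2)) k l *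
      (d l - d k) = 0) ∧
  ∑ u : S₀, wt M u * c2 u * (c u - s) + ∑ l, c2 (p l) * (d l - s) + q * (0 - s) = 0

theorem sol_iff (b : ZMod 3) (hM : M ⊆ S₀) (hp : Function.Injective p) (hpr : ∀ i, Pq (p i))
    (hS₀ : ∀ u ∈ S₀, Pq u) (hd : ∀ i, p i ∉ S₀) (v : ↥(S₀ ∪ univ.image p) → ZMod 3)
    (s : ZMod 3) :
    ((∀ π : ↥(S₀ ∪ univ.image p), ∑ ρ : ↥(S₀ ∪ univ.image p), wt M ρ * cs π ρ * (v ρ - v π) +
      s * c2 π = (b * c2 π - c3 π) * v π) ∧
      ∑ ρ : ↥(S₀ ∪ univ.image p), wt M ρ * c2 ρ * v ρ = b * s) ↔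
    YY b (b - ∑ u : S₀, wt M u * c2 u - ∑ l, c2 (p l)) M S₀ p
      (fun u => v (em S₀ p (Sum.inl u))) (fun l => v (em S₀ p (Sum.inr l))) s := by
  have hw : ∀ i, wt M (em S₀ p (Sum.inr i) : Ei) = 1 := fun i => wt_one fun h => hd i (hM h)
  have hsym : ∀ k : ι, ∑ u : S₀, wt M u * cs (p k) u *
      (v (em S₀ p (Sum.inl u)) - v (em S₀ p (Sum.inr k))) =
      ∑ u : S₀, wt M u * cs u (p k) *
        (v (em S₀ p (Sum.inl u)) - v (em S₀ p (Sum.inr k))) := by
    intro k
    refine Finset.sum_congr rfl fun u _ => ?_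
    rw [cs_symm (hpr k) (hS₀ u u.2)]
  have hext := fun k => ext_sum hpr k (fun l => v (em S₀ p (Sum.inr l)))
  -- the rows
  have hrow1 : ∀ u : S₀, ∑ ρ : ↥(S₀ ∪ univ.image p), wt M ρ * cs u ρ *
      (v ρ - v (em S₀ p (Sum.inl u))) =
      ∑ w : S₀, wt M w * cs u w * (v (em S₀ p (Sum.inl w)) - v (em S₀ p (Sum.inl u))) +
      ∑ l, cs u (p l) * (v (em S₀ p (Sum.inr l)) - v (em S₀ p (Sum.inl u))) := by
    intro u
    rw [sum_em hp hd]
    congr 1
    refine Finset.sum_congr rfl fun l _ => ?_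
    rw [hw, one_mul]
    rfl
  have hrow2 : ∀ k : ι, ∑ ρ : ↥(S₀ ∪ univ.image p), wt M ρ * cs (p k) ρ *
      (v ρ - v (em S₀ p (Sum.inr k))) =
      ∑ w : S₀, wt M w * cs (p k) w * (v (em S₀ p (Sum.inl w)) - v (em S₀ p (Sum.inr k))) +
      ∑ l, cs (p k) (p l) * (v (em S₀ p (Sum.inr l)) - v (em S₀ p (Sum.inr k))) := by
    intro k
    rw [sum_em hp hd]
    congr 1
    refine Finset.sum_congr rfl fun l _ => ?_
    rw [hw, one_mul]
    rfl
  have hrow3 : ∑ ρ : ↥(S₀ ∪ univ.image p), wt M ρ * c2 ρ * v ρ =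
      ∑ u : S₀, wt M u * c2 u * v (em S₀ p (Sum.inl u)) +
      ∑ l, c2 (p l) * v (em S₀ p (Sum.inr l)) := by
    rw [sum_em hp hd]
    congr 1
    refine Finset.sum_congr rfl fun l _ => ?_
    rw [hw, one_mul]
    rfl
  have hrow3' : ∑ u : S₀, wt M u * c2 u * (v (em S₀ p (Sum.inl u)) - s) +
      ∑ l, c2 (p l) * (v (em S₀ p (Sum.inr l)) - s) +
      (b - ∑ u : S₀, wt M u * c2 u - ∑ l, c2 (p l)) * (0 - s) =
      (∑ u : S₀, wt M u * c2 u * v (em S₀ p (Sum.inl u)) +
      ∑ l, c2 (p l) * v (em S₀ p (Sum.inr l))) - b * s := by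
    simp only [mul_sub, Finset.sum_sub_distrib, ← Finset.sum_mul]
    ring
  have hmul : ∀ u : S₀, ∑ w : S₀, wt M u * wt M w * cs u w *
      (v (em S₀ p (Sum.inl w)) - v (em S₀ p (Sum.inl u))) +
      wt M u * c2 u * (s - v (em S₀ p (Sum.inl u))) +
      wt M u * ((b - 1) * c2 u - c3 u) * (0 - v (em S₀ p (Sum.inl u))) +
      ∑ l, wt M u * cs u (p l) * (v (em S₀ p (Sum.inr l)) - v (em S₀ p (Sum.inl u))) =
      wt M u * ((∑ w : S₀, wt M w * cs u w *
        (v (em S₀ p (Sum.inl w)) - v (em S₀ p (Sum.inl u))) +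
      ∑ l, cs u (p l) * (v (em S₀ p (Sum.inr l)) - v (em S₀ p (Sum.inl u)))) + s * c2 u -
        (b * c2 u - c3 u) * v (em S₀ p (Sum.inl u))) := by
    intro u
    have a1 : ∑ w : S₀, wt M u * wt M w * cs u w *
        (v (em S₀ p (Sum.inl w)) - v (em S₀ p (Sum.inl u))) =
        wt M u * ∑ w : S₀, wt M w * cs u w *
        (v (em S₀ p (Sum.inl w)) - v (em S₀ p (Sum.inl u))) := by
      rw [Finset.mul_sum]
      exact Finset.sum_congr rfl fun v _ => by ring
    have a2 : ∑ l, wt M u * cs u (p l) * (v (em S₀ p (Sum.inr l)) - v (em S₀ p (Sum.inl u))) =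
        wt M u * ∑ l, cs u (p l) * (v (em S₀ p (Sum.inr l)) - v (em S₀ p (Sum.inl u))) := by
      rw [Finset.mul_sum]
      exact Finset.sum_congr rfl fun v _ => by ring
    rw [a1, a2]
    ring
  constructor
  · rintro ⟨h, h'⟩
    refine ⟨fun u => ?_, fun k => ?_, ?_⟩
    · have h1 := h (em S₀ p (Sum.inl u))
      refine (hmul u).trans ?_
      have h2 : (∑ w : S₀, wt M w * cs u w *
        (v (em S₀ p (Sum.inl w)) - v (em S₀ p (Sum.inl u))) +
        ∑ l, cs u (p l) * (v (em S₀ p (Sum.inr l)) - v (em S₀ p (Sum.inl u)))) + s * c2 u =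
        (b * c2 u - c3 u) * v (em S₀ p (Sum.inl u)) := by
        rw [← hrow1 u]
        exact h1
      rw [h2, sub_self, mul_zero]
    · have h2 : ∑ ρ : ↥(S₀ ∪ univ.image p), wt M ρ * cs (p k) ρ *
          (v ρ - v (em S₀ p (Sum.inr k))) + s * c2 (p k) =
          (b * c2 (p k) - c3 (p k)) * v (em S₀ p (Sum.inr k)) := h (em S₀ p (Sum.inr k))
      rw [hrow2 k, hsym, ← hext k] at h2
      change ∑ u : S₀, wt M u * cs u (p k) *
          (v (em S₀ p (Sum.inl u)) - v (em S₀ p (Sum.inr k))) +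
          c2 (p k) * (s - v (em S₀ p (Sum.inr k))) +
          ((b - 1) * c2 (p k) - c3 (p k)) * (0 - v (em S₀ p (Sum.inr k))) +
          ∑ l, Pool.Agent.Y703.XK.ext (fun e : prs ι => cs (p e.1.1) (p e.1.2)) k l *
          (v (em S₀ p (Sum.inr l)) - v (em S₀ p (Sum.inr k))) = 0
      linear_combination h2
    · refine hrow3'.trans ?_
      rw [← hrow3, h', sub_self]
  · rintro ⟨h1, h2, h3⟩
    refine ⟨fun x => ?_, ?_⟩
    · obtain ⟨y, rfl⟩ := (em_bij hp hd).2 x
      rcases y with u | k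
      · have h4 := (hmul u).symm.trans (h1 u)
        have h5 := sub_eq_zero.1 ((mul_eq_zero.1 h4).resolve_left (wt_ne M _))
        rw [← hrow1 u] at h5
        exact h5
      · have h4 : ∑ u : S₀, wt M u * cs u (p k) *
            (v (em S₀ p (Sum.inl u)) - v (em S₀ p (Sum.inr k))) +
            c2 (p k) * (s - v (em S₀ p (Sum.inr k))) +
            ((b - 1) * c2 (p k) - c3 (p k)) * (0 - v (em S₀ p (Sum.inr k))) +
          ∑ l, Pool.Agent.Y703.XK.ext (fun e : prs ι => cs (p e.1.1) (p e.1.2)) k l *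
            (v (em S₀ p (Sum.inr l)) - v (em S₀ p (Sum.inr k))) = 0 := h2 k
        rw [hext k, ← hsym] at h4
        have h5 : ∑ ρ : ↥(S₀ ∪ univ.image p), wt M ρ * cs (p k) ρ *
            (v ρ - v (em S₀ p (Sum.inr k))) + s * c2 (p k) =
            (b * c2 (p k) - c3 (p k)) * v (em S₀ p (Sum.inr k)) := by
          rw [hrow2 k]
          linear_combination h4
        exact h5
    · rw [hrow3]
      exact sub_eq_zero.1 (hrow3'.symm.trans h3)

/-- the block system with the two additional vertices -/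
theorem sys_iff (b q : ZMod 3) (hS₀ : ∀ u ∈ S₀, Pq u) (t s : ZMod 3) (c : S₀ → ZMod 3)
    (d : ι → ZMod 3) (a : Option (Option S₀) → ZMod 3) (e : ι → ZMod 3) (ha0 : a none = t)
    (ha1 : a (some none) = s + t)
    (ha : ∀ u, a (some (some u)) = c u + t) (hb : ∀ l, e l = d l + t) :
    ((∀ u, ∑ v, AA2 b q M S₀ u v * (a v - a u) +
        ∑ l, wo2 M S₀ u * lb2 b S₀ (p l) u * (e l - a u) = 0) ∧
      (∀ k, ∑ u, wo2 M S₀ u * lb2 b S₀ (p k) u * (a u - e k) +
        ∑ l, Pool.Agent.Y703.XK.ext (fun e : prs ι => cs (p e.1.1) (p e.1.2)) k l *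
          (e l - e k) = 0)) ↔ YY b q M S₀ p c d s := by
  have r1 : ∀ u : S₀, ∑ v, AA2 b q M S₀ (some (some u)) v * (a v - a (some (some u))) +
        ∑ l, wo2 M S₀ (some (some u)) * lb2 b S₀ (p l) (some (some u)) *
          (e l - a (some (some u))) =
      ∑ v : S₀, wt M u * wt M v * cs u v * (c v - c u) + wt M u * c2 u * (s - c u) +
        wt M u * ((b - 1) * c2 u - c3 u) * (0 - c u) +
        ∑ l, wt M u * cs u (p l) * (d l - c u) := by
    intro u
    rw [Fintype.sum_option, Fintype.sum_option]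
    simp only [AA2, wo2, lb2, ha0, ha1, ha, hb, add_sub_add_right_eq_sub]
    ring
  have r0 : ∑ v, AA2 b q M S₀ (some none) v * (a v - a (some none)) +
        ∑ l, wo2 M S₀ (some none) * lb2 b S₀ (p l) (some none) * (e l - a (some none)) =
      ∑ u : S₀, wt M u * c2 u * (c u - s) + ∑ l, c2 (p l) * (d l - s) + q * (0 - s) := by
    rw [Fintype.sum_option, Fintype.sum_option]
    simp only [AA2, wo2, lb2, ha0, ha1, ha, hb, add_sub_add_right_eq_sub, one_mul]
    ring
  have r2 : ∀ k : ι, ∑ u, wo2 M S₀ u * lb2 b S₀ (p k) u * (a u - e k) +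
        ∑ l, Pool.Agent.Y703.XK.ext (fun e : prs ι => cs (p e.1.1) (p e.1.2)) k l *
          (e l - e k) =
      ∑ u : S₀, wt M u * cs u (p k) * (c u - d k) + c2 (p k) * (s - d k) +
      ((b - 1) * c2 (p k) - c3 (p k)) * (0 - d k) +
      ∑ l, Pool.Agent.Y703.XK.ext (fun e : prs ι => cs (p e.1.1) (p e.1.2)) k l *
        (d l - d k) := by
    intro k
    rw [Fintype.sum_option, Fintype.sum_option]
    simp only [wo2, lb2, ha0, ha1, ha, hb, add_sub_add_right_eq_sub]
    ring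
  constructor
  · rintro ⟨h1, h2⟩
    exact ⟨fun u => (r1 u).symm.trans (h1 (some (some u))), fun k => (r2 k).symm.trans (h2 k),
      r0.symm.trans (h1 (some none))⟩
  · rintro ⟨h1, h2, h3⟩
    have q1 : ∀ u : S₀, ∑ v, AA2 b q M S₀ (some (some u)) v * (a v - a (some (some u))) +
        ∑ l, wo2 M S₀ (some (some u)) * lb2 b S₀ (p l) (some (some u)) *
          (e l - a (some (some u))) = 0 :=
      fun u => (r1 u).trans (h1 u)
    have q2 : ∀ k : ι, ∑ u, wo2 M S₀ u * lb2 b S₀ (p k) u * (a u - e k) +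
        ∑ l, Pool.Agent.Y703.XK.ext (fun e : prs ι => cs (p e.1.1) (p e.1.2)) k l *
          (e l - e k) = 0 := fun k => (r2 k).trans (h2 k)
    have q0 : ∑ v, AA2 b q M S₀ (some none) v * (a v - a (some none)) +
        ∑ l, wo2 M S₀ (some none) * lb2 b S₀ (p l) (some none) * (e l - a (some none)) = 0 :=
      r0.trans h3
    have q3 : ∑ v, AA2 b q M S₀ none v * (a v - a none) +
        ∑ l, wo2 M S₀ none * lb2 b S₀ (p l) none * (e l - a none) = 0 := by
      have s1 := sum_lap (AA2 b q M S₀) (fun k l => AA2_symm b q hS₀ k l) a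
      have s2 := sum_lap (Pool.Agent.Y703.XK.ext (fun e : prs ι => cs (p e.1.1) (p e.1.2)))
        (ext_symm _) e
      have s3 : ∑ u, ∑ l, wo2 M S₀ u * lb2 b S₀ (p l) u * (e l - a u) +
          ∑ k, ∑ u, wo2 M S₀ u * lb2 b S₀ (p k) u * (a u - e k) = 0 := by
        rw [Finset.sum_comm, ← Finset.sum_add_distrib]
        refine Finset.sum_eq_zero fun k _ => ?_
        rw [← Finset.sum_add_distrib]
        refine Finset.sum_eq_zero fun u _ => ?_
        ring
      have s4 : ∑ k, (∑ u, wo2 M S₀ u * lb2 b S₀ (p k) u * (a u - e k) +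
        ∑ l, Pool.Agent.Y703.XK.ext (fun e : prs ι => cs (p e.1.1) (p e.1.2)) k l *
          (e l - e k)) = 0 := Finset.sum_eq_zero fun k _ => q2 k
      have s5 : ∑ u : S₀, (∑ v, AA2 b q M S₀ (some (some u)) v * (a v - a (some (some u))) +
        ∑ l, wo2 M S₀ (some (some u)) * lb2 b S₀ (p l) (some (some u)) *
          (e l - a (some (some u)))) = 0 :=
        Finset.sum_eq_zero fun u _ => q1 u
      have t1 : ∀ F : Option (Option S₀) → ZMod 3,
          ∑ o, F o = F none + (F (some none) + ∑ u : S₀, F (some (some u))) := fun F => by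
        rw [Fintype.sum_option, Fintype.sum_option]
      rw [t1 fun k => ∑ l, AA2 b q M S₀ k l * (a l - a k)] at s1
      rw [t1 fun u => ∑ l, wo2 M S₀ u * lb2 b S₀ (p l) u * (e l - a u)] at s3
      rw [Finset.sum_add_distrib] at s4 s5
      rw [s2, add_zero] at s4
      rw [s4, add_zero] at s3
      linear_combination s1 + s3 - s5 - q0
    refine ⟨fun u => ?_, q2⟩
    rcases u with _ | _ | u
    · exact q3
    · exact q0
    · exact q1 u

/-- the functions on all the vertices -/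
noncomputable def fo (hp : Function.Injective p) (hd : ∀ i, p i ∉ S₀) :
    (ZMod 3 × ((↥(S₀ ∪ univ.image p) → ZMod 3) × ZMod 3)) ≃
      (Option (Option S₀) → ZMod 3) × (ι → ZMod 3) where
  toFun y := (fun o => match o with
    | none => y.1
    | some none => y.2.2 + y.1
    | some (some u) => (fe hp hd y.2.1).1 u + y.1, fun l => (fe hp hd y.2.1).2 l + y.1)
  invFun x := (x.1 none, ((fe hp hd).symm (fun u => x.1 (some (some u)) - x.1 none,
    fun l => x.2 l - x.1 none), x.1 (some none) - x.1 none))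
  left_inv y := by
    refine Prod.ext rfl (Prod.ext ?_ ?_)
    · change (fe hp hd).symm (fun u => (fe hp hd y.2.1).1 u + y.1 - y.1,
        fun l => (fe hp hd y.2.1).2 l + y.1 - y.1) = y.2.1
      simp only [add_sub_cancel_right]
      exact (fe hp hd).symm_apply_apply y.2.1
    · exact add_sub_cancel_right _ _
  right_inv x := by
    refine Prod.ext (funext fun o => ?_) (funext fun l => ?_)
    · rcases o with _ | _ | u
      · rfl
      · exact sub_add_cancel _ _
      · change (fe hp hd ((fe hp hd).symm _)).1 u + x.1 none = x.1 (some (some u))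
        rw [(fe hp hd).apply_symm_apply]
        exact sub_add_cancel _ _
    · change (fe hp hd ((fe hp hd).symm _)).2 l + x.1 none = x.2 l
      rw [(fe hp hd).apply_symm_apply]
      exact sub_add_cancel _ _

/-- **the numbers of solutions** -/
theorem nA_eq (b : ZMod 3) (hM : M ⊆ S₀) (hp : Function.Injective p) (hpr : ∀ i, Pq (p i))
    (hS₀ : ∀ u ∈ S₀, Pq u) (hd : ∀ i, p i ∉ S₀) :
    nA (AA2 b (b - ∑ u : S₀, wt M u * c2 u - ∑ l, c2 (p l)) M S₀)
      (fun u l => wo2 M S₀ u * lb2 b S₀ (p l) u)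
      (Pool.Agent.Y703.XK.ext fun e : prs ι => cs (p e.1.1) (p e.1.2)) =
      3 * n2 b M (S₀ ∪ univ.image p) := by
  have h1 : Nat.card {y : ZMod 3 × ((↥(S₀ ∪ univ.image p) → ZMod 3) × ZMod 3) //
      (∀ π : ↥(S₀ ∪ univ.image p), ∑ ρ : ↥(S₀ ∪ univ.image p),
        wt M ρ * cs π ρ * (y.2.1 ρ - y.2.1 π) + y.2.2 * c2 π = (b * c2 π - c3 π) * y.2.1 π) ∧
      ∑ ρ : ↥(S₀ ∪ univ.image p), wt M ρ * c2 ρ * y.2.1 ρ = b * y.2.2} =
      3 * n2 b M (S₀ ∪ univ.image p) := by
    have e : {y : ZMod 3 × ((↥(S₀ ∪ univ.image p) → ZMod 3) × ZMod 3) //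
      (∀ π : ↥(S₀ ∪ univ.image p), ∑ ρ : ↥(S₀ ∪ univ.image p),
        wt M ρ * cs π ρ * (y.2.1 ρ - y.2.1 π) + y.2.2 * c2 π = (b * c2 π - c3 π) * y.2.1 π) ∧
      ∑ ρ : ↥(S₀ ∪ univ.image p), wt M ρ * c2 ρ * y.2.1 ρ = b * y.2.2} ≃
      ZMod 3 × {x : (↥(S₀ ∪ univ.image p) → ZMod 3) × ZMod 3 //
        (∀ π : ↥(S₀ ∪ univ.image p), ∑ ρ : ↥(S₀ ∪ univ.image p),
          wt M ρ * cs π ρ * (x.1 ρ - x.1 π) + x.2 * c2 π = (b * c2 π - c3 π) * x.1 π) ∧
        ∑ ρ : ↥(S₀ ∪ univ.image p), wt M ρ * c2 ρ * x.1 ρ = b * x.2} :=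
      { toFun := fun y => (y.1.1, ⟨y.1.2, y.2⟩)
        invFun := fun z => ⟨(z.1, z.2.1), z.2.2⟩
        left_inv := fun _ => rfl
        right_inv := fun _ => rfl }
    rw [Nat.card_congr e, Nat.card_prod, Nat.card_zmod]
    rfl
  rw [← h1]
  unfold nA
  refine (Nat.card_congr (Equiv.subtypeEquiv (fo hp hd) fun y => ?_)).symm
  rw [sol_iff b hM hp hpr hS₀ hd]
  exact (sys_iff b _ hS₀ y.1 _ _ _ _ _ rfl rfl (fun u => rfl) (fun l => rfl)).symm

theorem gr2_iff (b : ZMod 3) (hM : M ⊆ S₀) (hp : Function.Injective p) (hpr : ∀ i, Pq (p i))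
    (hS₀ : ∀ u ∈ S₀, Pq u) (hd : ∀ i, p i ∉ S₀) (r : ℕ) :
    n2 b M (S₀ ∪ univ.image p) = 3 ^ r ↔
      nA (AA2 b (b - ∑ u : S₀, wt M u * c2 u - ∑ l, c2 (p l)) M S₀)
      (fun u l => wo2 M S₀ u * lb2 b S₀ (p l) u)
      (Pool.Agent.Y703.XK.ext fun e : prs ι => cs (p e.1.1) (p e.1.2)) = 3 ^ (r + 1) := by
  rw [nA_eq b hM hp hpr hS₀ hd, pow_succ']
  constructor
  · intro h
    rw [h]
  · intro h
    exact Nat.eq_of_mul_eq_mul_left (by norm_num) h

end one

/-- **The count in a box.** -/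
theorem t_BOX2 : S_BOX2 := by
  intro hEQ hLA b r ι _ _ C X κ M S₀ hM hκ hCX hHB hS₀ hC hdis hcard
  obtain ⟨cc, hcc⟩ : ∃ cc : ℝ, cc = 3 ^ (r + 2) * (3 ^ (S₀.card + 1) / 3 ^ Fintype.card ι) :=
    ⟨_, rfl⟩
  obtain ⟨R, hR⟩ : ∃ R : ℝ, R = 3 ^ (prs ι).card * (κ * ∏ j, (X j : ℝ)) := ⟨_, rfl⟩
  have hcc0 : 0 ≤ cc := by rw [hcc]; positivity
  have hR0 : 0 ≤ R := by
    rw [hR]
    exact mul_nonneg (by positivity)
      (mul_nonneg hκ (Finset.prod_nonneg fun j _ => by positivity))
  have hco : Fintype.card (Option (Option S₀)) = S₀.card + 2 := by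
    rw [Fintype.card_option, Fintype.card_option, Fintype.card_coe]
  -- facts on tuples
  have hinj : ∀ p ∈ Fintype.piFinset C, Function.Injective p := by
    intro p hp i j hij
    rw [Fintype.mem_piFinset] at hp
    by_contra hne
    have h1 := Finset.disjoint_left.1 (hdis i j hne) (hp i)
    rw [hij] at h1
    exact h1 (hp j)
  have hd : ∀ p ∈ Fintype.piFinset C, ∀ i, p i ∉ S₀ := by
    intro p hp i
    rw [Fintype.mem_piFinset] at hp
    exact (hC i _ (hp i)).2
  have hpr : ∀ p ∈ Fintype.piFinset C, ∀ i, Pq (p i) := by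
    intro p hp i
    rw [Fintype.mem_piFinset] at hp
    exact (hC i _ (hp i)).1
  -- the part with given labels
  have h1 : ∀ β : ι → Option (Option S₀) → ZMod 3, LN2 S₀ β →
      |(((Fintype.piFinset C).filter fun p => (fun i => lb2 b S₀ (p i)) = β ∧
          n2 b M (S₀ ∪ univ.image p) = 3 ^ r).card : ℝ) -
        cr r * (((Fintype.piFinset C).filter fun p => (fun i => lb2 b S₀ (p i)) = β).card : ℝ)| ≤
      cc * (((Fintype.piFinset C).filter fun p => (fun i => lb2 b S₀ (p i)) = β).card : ℝ) + R := by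
    intro β hβ
    obtain ⟨C', hC'⟩ : ∃ C' : ι → Finset Ei, C' = fun i => (C i).filter fun q => lb2 b S₀ q = β i :=
      ⟨_, rfl⟩
    have hpi : (Fintype.piFinset C).filter (fun p => (fun i => lb2 b S₀ (p i)) = β) =
        Fintype.piFinset C' := by
      ext p
      simp only [Finset.mem_filter, Fintype.mem_piFinset, hC']
      constructor
      · rintro ⟨h2, h3⟩ i
        exact ⟨h2 i, congrFun h3 i⟩
      · intro h2
        exact ⟨fun i => (h2 i).1, funext fun i => (h2 i).2⟩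
    have h2 := hLA r (Option (Option S₀)) ι
      (AA2 b (b - ∑ u : S₀, wt M u * c2 u - ∑ l, β l (some none)) M S₀) (fun u l => wo2 M S₀ u * β l u)
      (by rw [hco]; exact hcard)
      (fun u v => AA2_symm b _ hS₀ u v)
      (fun w hw => by
        obtain ⟨u, hu⟩ := hw
        obtain ⟨k, hk⟩ := hβ (fun u => w u * wo2 M S₀ u) ⟨u, mul_ne_zero hu (wo2_ne M S₀ u)⟩
        refine ⟨k, fun h0 => hk ?_⟩
        rw [← h0]
        exact Finset.sum_congr rfl fun u _ => mul_assoc _ _ _)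
    obtain ⟨Q, hQ⟩ : ∃ Q : (prs ι → ZMod 3) → Prop, Q = fun α =>
        nA (AA2 b (b - ∑ u : S₀, wt M u * c2 u - ∑ l, β l (some none)) M S₀) (fun u l => wo2 M S₀ u * β l u)
          (Pool.Agent.Y703.XK.ext α) = 3 ^ (r + 1) := ⟨_, rfl⟩
    have h3 := hEQ ι C' X κ hκ
      (fun i => (Finset.card_le_card (by rw [hC']; exact Finset.filter_subset _ _)).trans (hCX i))
      (by rw [hC']; exact HB_sub hHB fun i q => lb2 b S₀ q = β i) Q
    have h4 : ((Fintype.piFinset C).filter fun p => (fun i => lb2 b S₀ (p i)) = β ∧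
        n2 b M (S₀ ∪ univ.image p) = 3 ^ r) = ((Fintype.piFinset C').filter fun p =>
          Q fun e => cs (p e.1.1) (p e.1.2)) := by
      rw [← hpi, Finset.filter_filter]
      refine Finset.filter_congr fun p hp => ?_
      refine and_congr_right fun hl => ?_
      rw [gr2_iff b hM (hinj p hp) (hpr p hp) hS₀ (hd p hp)]
      subst hl
      rw [hQ]
      exact Iff.rfl
    have h5 : (((Fintype.piFinset C').card : ℕ) : ℝ) = ∏ j, ((C' j).card : ℝ) := by
      rw [Fintype.card_piFinset]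
      push_cast
      rfl
    rw [h4, hpi, h5]
    have e0 : (3 : ℝ) ^ (r + 1) * (3 ^ (S₀.card + 2) / 3 ^ Fintype.card ι) = cc := by
      rw [hcc]; ring
    rw [hco, e0] at h2
    rw [← hR] at h3
    obtain ⟨n, hn⟩ : ∃ n : ℝ, n = (((Fintype.piFinset C').filter fun p =>
          Q fun e => cs (p e.1.1) (p e.1.2)).card : ℝ) := ⟨_, rfl⟩
    obtain ⟨q, hq⟩ : ∃ q : ℝ, q = ((univ.filter Q).card : ℝ) / 3 ^ (prs ι).card := ⟨_, rfl⟩
    obtain ⟨P, hP⟩ : ∃ P : ℝ, P = ∏ j, ((C' j).card : ℝ) := ⟨_, rfl⟩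
    have hP0 : 0 ≤ P := by
      rw [hP]
      exact Finset.prod_nonneg fun j _ => by positivity
    have h2' : |q - cr r| ≤ cc := by
      have e : (univ.filter Q) = (univ.filter fun α : prs ι → ZMod 3 =>
          nA (AA2 b (b - ∑ u : S₀, wt M u * c2 u - ∑ l, β l (some none)) M S₀) (fun u l => wo2 M S₀ u * β l u)
            (Pool.Agent.Y703.XK.ext α) = 3 ^ (r + 1)) := by
        ext α
        rw [Finset.mem_filter, Finset.mem_filter, hQ]
      rw [hq, e]
      exact h2
    rw [← hn, ← hq, ← hP] at h3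
    rw [← hn, ← hP]
    have h6 : |n - cr r * P| ≤ |n - q * P| + |q - cr r| * P := by
      have h7 : n - cr r * P = (n - q * P) + (q - cr r) * P := by ring
      have h8 : |(q - cr r) * P| = |q - cr r| * P := by rw [abs_mul, abs_of_nonneg hP0]
      rw [h7, ← h8]
      exact abs_add_le _ _
    have h7 : |q - cr r| * P ≤ cc * P := mul_le_mul_of_nonneg_right h2' hP0
    linarith
  -- sum over the labels
  obtain ⟨LL, hLL⟩ : ∃ LL : Finset (ι → Option (Option S₀) → ZMod 3),
      LL = univ.filter (fun β => LN2 S₀ β) := ⟨_, rfl⟩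
  have hfib : ∀ T : (ι → Ei) → Prop,
      (((Fintype.piFinset C).filter fun p => Nd9 S₀ (univ.image p) ∧ T p).card : ℝ) =
      ∑ β ∈ LL, (((Fintype.piFinset C).filter fun p =>
        (fun i => lb2 b S₀ (p i)) = β ∧ T p).card : ℝ) := by
    intro T
    rw [Finset.card_eq_sum_card_fiberwise (f := fun (p : ι → Ei) (i : ι) => lb2 b S₀ (p i))
      (t := LL) (by
        intro p hp
        rw [Finset.mem_coe, Finset.mem_filter] at hp
        rw [Finset.mem_coe, hLL, Finset.mem_filter]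
        exact ⟨Finset.mem_univ _, (nd9_iff b).1 hp.2.1⟩)]
    push_cast
    refine Finset.sum_congr rfl fun β hβ => ?_
    rw [hLL, Finset.mem_filter] at hβ
    congr 2
    ext p
    simp only [Finset.mem_filter]
    constructor
    · rintro ⟨⟨h3, h4, h4'⟩, h5⟩
      exact ⟨h3, h5, h4'⟩
    · rintro ⟨h3, h4, h5⟩
      refine ⟨⟨h3, ?_, h5⟩, h4⟩
      rw [nd9_iff b, h4]
      exact hβ.2
  have hf1 := hfib fun p => n2 b M (S₀ ∪ univ.image p) = 3 ^ r
  have hf2 : (((Fintype.piFinset C).filter fun p => Nd9 S₀ (univ.image p)).card : ℝ) =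
      ∑ β ∈ LL, (((Fintype.piFinset C).filter fun p =>
        (fun i => lb2 b S₀ (p i)) = β).card : ℝ) := by
    have hf3 := hfib fun _ => True
    refine Eq.trans ?_ (hf3.trans ?_)
    · congr 2
      ext p
      simp only [Finset.mem_filter, and_true]
    · refine Finset.sum_congr rfl fun β _ => ?_
      congr 2
      ext p
      simp only [Finset.mem_filter, and_true]
  rw [← hcc, hf1, hf2, Finset.mul_sum, ← Finset.sum_sub_distrib]
  have key := fun (β : ι → Option (Option S₀) → ZMod 3) (hβ : β ∈ LL) => h1 β (by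
    rw [hLL] at hβ
    exact (Finset.mem_filter.1 hβ).2)
  refine (Finset.abs_sum_le_sum_abs _ _).trans ?_
  refine le_trans (le_of_eq ?_) ((Finset.sum_le_sum key).trans ?_)
  · refine Finset.sum_congr rfl fun β _ => ?_
    congr 3
    congr 1
    ext p
    simp only [Finset.mem_filter]
  rw [Finset.sum_add_distrib, ← Finset.mul_sum, Finset.sum_const, nsmul_eq_mul]
  have h5 : ((LL.card : ℕ) : ℝ) ≤ 3 ^ ((S₀.card + 2) * Fintype.card ι) := by
    have h6 : LL.card ≤ Fintype.card (ι → Option (Option S₀) → ZMod 3) :=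
      Finset.card_le_univ _
    rw [Fintype.card_fun, Fintype.card_fun, ZMod.card, hco, ← pow_mul] at h6
    exact_mod_cast h6
  have h6 := mul_le_mul_of_nonneg_right h5 hR0
  rw [pow_add, mul_assoc, ← hR]
  linarith

end Pool.Agent.E8helper55.CTM
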